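import Pool.Agent.Q162.Freud.Main

/-!
# MP_d042fc_an : the sextic Freud string equation has exactly one positive solution

For all real `κ, τ` (with `t = -κ τ^2`) the fourth order equation (E) with `b 0 = 0` has exactly one
positive solution, and it is the sequence of recurrence coefficients of the monic orthogonal
polynomials for the weight `exp (-x^6 + τ x^4 + t x^2)` on `ℝ`.
-/

namespace Pool.Agent.Results.MP_d042fc_an.UniquePositiveSolution

open MeasureTheory Polynomial

/-- The sextic Freud weight `ω(x; τ, t) = exp (-x^6 + τ x^4 + t x^2)`. -/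
noncomputable def weight (τ t x : ℝ) : ℝ := Real.exp (-x ^ 6 + τ * x ^ 4 + t * x ^ 2)

/-- The moments `μ_k = ∫ x^k ω(x; τ, t) dx`. -/
noncomputable def moment (τ t : ℝ) (k : ℕ) : ℝ := ∫ x : ℝ, x ^ k * weight τ t x

/-- The monic polynomials given by `P 0 = 1`, `P 1 = X`, `P (n+2) = X P (n+1) - β (n+1) P n`. -/
noncomputable def monicPoly (β : ℕ → ℝ) : ℕ → ℝ[X]
  | 0 => 1
  | 1 => X
  | (n + 2) => X * monicPoly β (n + 1) - C (β (n + 1)) * monicPoly β n

/-- `β` is the sequence of recurrence coefficients of the weight: `β 0 = 0` and the monic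
polynomials `P n` defined by the three term recurrence with coefficients `β` are pairwise orthogonal
with respect to the weight (so they are the monic orthogonal polynomials), with
`β n = ‖P n‖² / ‖P (n-1)‖²` for `n ≥ 1`. -/
def IsRecurrenceCoefficients (τ t : ℝ) (β : ℕ → ℝ) : Prop :=
  β 0 = 0 ∧
  (∀ n m, Integrable (fun x : ℝ => (monicPoly β n).eval x * (monicPoly β m).eval x * weight τ t x)) ∧
  (∀ n m, n ≠ m →
    ∫ x : ℝ, (monicPoly β n).eval x * (monicPoly β m).eval x * weight τ t x = 0) ∧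
  (∀ n, β (n + 1) = (∫ x : ℝ, (monicPoly β (n + 1)).eval x ^ 2 * weight τ t x)
    / ∫ x : ℝ, (monicPoly β n).eval x ^ 2 * weight τ t x)

/-- A positive solution of (E) with parameters `τ, t`.  (For `n = 1` the term `b (n-2) * b (n-1)` is
`0` because `b 0 = 0`, in agreement with the convention `β_{-1} = 0`.) -/
structure IsPositiveSolution (τ t : ℝ) (b : ℕ → ℝ) : Prop where
  zero : b 0 = 0
  pos : ∀ n, 1 ≤ n → 0 < b n
  eqn : ∀ n : ℕ, 1 ≤ n →
    6 * b n * (b (n - 2) * b (n - 1) + b (n - 1) ^ 2 + 2 * b (n - 1) * b n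
      + b (n - 1) * b (n + 1) + b n ^ 2 + 2 * b n * b (n + 1) + b (n + 1) ^ 2
      + b (n + 1) * b (n + 2))
    - 4 * τ * b n * (b (n - 1) + b n + b (n + 1)) - 2 * t * b n = n

lemma monicPoly_eq (β : ℕ → ℝ) : monicPoly β = Q162.Freud.P β := by
  have key : ∀ n, monicPoly β n = Q162.Freud.P β n ∧
      monicPoly β (n + 1) = Q162.Freud.P β (n + 1) := by
    intro n
    induction n with
    | zero => exact ⟨rfl, rfl⟩
    | succ n ih =>
      refine ⟨ih.2, ?_⟩
      rw [show n + 1 + 1 = n + 2 from rfl, Q162.Freud.P_add_two, ← ih.1, ← ih.2]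
      rfl
  exact funext fun n => (key n).1

lemma Lom_mul (τ t : ℝ) (p q : ℝ[X]) :
    (∫ x : ℝ, p.eval x * q.eval x * weight τ t x)
      = Q162.Freud.Lom τ t (p * q) * ∫ x : ℝ, weight τ t x := by
  have hpos := Q162.Freud.int_om_pos τ t
  have e : (∫ x : ℝ, weight τ t x) = ∫ x : ℝ, Q162.Freud.om τ t x := rfl
  rw [Q162.Freud.Lom_apply, e, div_mul_cancel₀ _ hpos.ne']
  simp only [eval_mul]
  rfl

/-- **Main theorem.** For all real `κ, τ`, with `t = -κ τ²`: there is a sequence `β` which is the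
sequence of recurrence coefficients of the weight, has `β 1 = μ₂/μ₀` and `β 2 = μ₄/μ₂ - μ₂/μ₀`, and
such that a real sequence `b` is a positive solution of (E) if and only if `b = β`. -/
theorem result (κ τ : ℝ) :
    ∃ β : ℕ → ℝ,
      IsRecurrenceCoefficients τ (-κ * τ ^ 2) β ∧
      β 1 = moment τ (-κ * τ ^ 2) 2 / moment τ (-κ * τ ^ 2) 0 ∧
      β 2 = moment τ (-κ * τ ^ 2) 4 / moment τ (-κ * τ ^ 2) 2
        - moment τ (-κ * τ ^ 2) 2 / moment τ (-κ * τ ^ 2) 0 ∧
      ∀ b : ℕ → ℝ, IsPositiveSolution τ (-κ * τ ^ 2) b ↔ b = β := by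
  set t : ℝ := -κ * τ ^ 2 with ht
  set L := Q162.Freud.Lom τ t with hL
  set β := Q162.Freud.bet L with hβ
  have hβ0 : β 0 = 0 := rfl
  have hfun : Q162.Freud.IsFun β L := Q162.Freud.bet_isFun τ t
  have hpos : ∀ n, 0 < β (n + 1) := Q162.Freud.bet_pos τ t
  have hIpos := Q162.Freud.int_om_pos τ t
  have hw : (∫ x : ℝ, weight τ t x) = ∫ x : ℝ, Q162.Freud.om τ t x := rfl
  have hsol : IsPositiveSolution τ t β := by
    refine ⟨hβ0, ?_, ?_⟩
    · intro n hn
      obtain ⟨k, rfl⟩ : ∃ k, n = k + 1 := ⟨n - 1, by omega⟩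
      exact hpos k
    · intro n hn
      exact Q162.Freud.bet_string τ t n hn
  have hg := hfun.gram hβ0
  have hmom : ∀ k, moment τ t k = L (X ^ k) * ∫ x : ℝ, weight τ t x := by
    intro k
    have := Lom_mul τ t (X ^ k) 1
    simpa [moment] using this
  have hm0 : moment τ t 0 = ∫ x : ℝ, weight τ t x := by
    rw [hmom 0, pow_zero, hfun.one, one_mul]
  -- first two coefficients
  have hb1 : L (X ^ 2) = β 1 := by
    have h1 := hg 1 1
    rw [if_pos rfl, Q162.Freud.h_succ, Q162.Freud.h_zero, Q162.Freud.P_one] at h1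
    rw [pow_two, h1]; ring
  have hP2 : Q162.Freud.P β 2 = X ^ 2 - C (β 1) := by
    rw [Q162.Freud.P_add_two, Q162.Freud.P_one, Q162.Freud.P_zero]; ring
  have hb2 : L (X ^ 4) = β 1 * β 2 + β 1 * β 1 := by
    have h1 := hg 2 2
    rw [if_pos rfl, Q162.Freud.h_succ, Q162.Freud.h_succ, Q162.Freud.h_zero, hP2] at h1
    have e : (X ^ 2 - C (β 1)) * (X ^ 2 - C (β 1)) = X ^ 4 - C (2 * β 1) * X ^ 2
        + C (β 1 * β 1) * 1 := by
      simp only [map_mul]
      have : (C (2:ℝ) : ℝ[X]) = 2 := rfl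
      rw [this]; ring
    rw [e, map_add, map_sub, Q162.Freud.C_mul_apply, Q162.Freud.C_mul_apply, hb1, hfun.one] at h1
    linarith
  have hβ1 : 0 < β 1 := hpos 0
  refine ⟨β, ⟨hβ0, ?_, ?_, ?_⟩, ?_, ?_, ?_⟩
  · intro n m
    have h := Q162.Freud.int_poly τ t (monicPoly β n * monicPoly β m)
    simp only [eval_mul] at h
    exact h
  · intro n m hnm
    rw [Lom_mul, monicPoly_eq, hg, if_neg hnm, zero_mul]
  · intro n
    have e : ∀ k, (∫ x : ℝ, (monicPoly β k).eval x ^ 2 * weight τ t x)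
        = L (Q162.Freud.P β k * Q162.Freud.P β k) * ∫ x : ℝ, weight τ t x := by
      intro k
      rw [← monicPoly_eq, ← Lom_mul]
      simp only [pow_two]
    rw [e, e, mul_div_mul_right _ _ (by rw [hw]; exact hIpos.ne')]
    exact Q162.Freud.bet_succ L n
  · rw [hm0, hmom 2, hb1, mul_div_assoc, div_self (by rw [hw]; exact hIpos.ne'), mul_one]
  · rw [hm0, hmom 2, hmom 4, hb1, hb2, mul_div_assoc (β 1), div_self (by rw [hw]; exact hIpos.ne'),
      mul_div_mul_right _ _ (by rw [hw]; exact hIpos.ne')]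
    field_simp
    ring
  · intro b
    constructor
    · intro hb
      have hbpos : ∀ n, 0 < b (n + 1) := fun n => hb.pos (n + 1) (by omega)
      have h1 : Q162.Freud.IsFun b L :=
        Q162.Freud.isFun_of_solution τ t b hb.zero hbpos (fun n hn => hb.eqn n hn)
      exact Q162.Freud.unique_b hb.zero hβ0 hpos h1 hfun
    · rintro rfl
      exact hsol

end Pool.Agent.Results.MP_d042fc_an.UniquePositiveSolution
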